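import Pool.Agent.N945.MRF.Rank

/-!
# No finitely dependent Markov random field is a proper colouring of `ℤ^d`

For all `d` and `q`, a shift-invariant finitely dependent Markov random field on `ℤ^d` with `q`
values takes equal values at `0` and `e_i` with positive probability, for every direction `i`.

Idea of the proof.  Take a tube `ℤ e_i × [-k, k]^(d-1)` around a line.  The values on the lateral
boundary of the tube are independent of the values on the line; given them, the Markov property
makes the line a function of a chain with finitely many states, so the word probabilities of the
line have finite rank.  On the finite dimensional space spanned by the futures the operators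
`f ↦ f (a :: ·)` sum to an operator of trace one by finite dependence; if equal neighbours had
probability zero, each of them would be square zero, hence of trace zero.
-/

namespace Pool.Agent.Results.MP_83a7f3_pr.NoMarkovColouring

open MeasureTheory Pool.Agent.N945.MRF

/-- Let `μ` be the law of a shift-invariant, finitely dependent Markov random field on `ℤ^d` with
values in a set of `q` colours.  Then for every direction the two ends of an edge have the same
colour with positive probability; in particular, for `d ≥ 1`, the field is not almost surely a
proper colouring. -/
theorem result (d q : ℕ) (μ : Measure (Conf d q)) [IsProbabilityMeasure μ]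
    (hinv : ShiftInvariant μ) (hdep : FinitelyDependent μ) (hmrf : MarkovField μ) :
    (∀ i : Fin d, 0 < μ {x | x 0 = x (Pi.single i 1)}) ∧
      (1 ≤ d → ¬ ∀ᵐ x ∂μ, ∀ u v : Site d, gdist u v = 1 → x u ≠ x v) := by
  have h : ∀ i : Fin d, 0 < μ {x | x 0 = x (Pi.single i 1)} :=
    fun i => pos_of_markov i μ hmrf hinv hdep
  refine ⟨h, fun hd hcol => ?_⟩
  have h0 := h ⟨0, hd⟩
  rw [pos_iff_ne_zero] at h0
  apply h0
  refine measure_mono_null ?_ (ae_iff.1 hcol)
  intro x hx hall
  refine hall 0 (Pi.single ⟨0, hd⟩ 1) ?_ hx
  have := gdist_single (⟨0, hd⟩ : Fin d) 0 1
  rw [Pi.single_zero] at this
  simpa using this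

end Pool.Agent.Results.MP_83a7f3_pr.NoMarkovColouring
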